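import Pool.Agent.Y52.SJ.Stm3

/-!
# SJ-EMB: a ball in the product of a body and a multiple of its polar (helper988)
-/

set_option autoImplicit false

namespace Pool.Agent.Y988.SJ

open Pool.Agent.Y52.SJ

theorem gw_lower {n : ℕ} (K : Set ((Fin (n + 1) → ℝ) × (Fin (n + 1) → ℝ))) (A : ℝ)
    (h : ∀ c : ℝ, 0 < c → c < 1 → ∃ r : ℝ, 0 < r ∧ Real.pi * r ^ 2 = A * c ∧
      SympEmb (ball (n + 1) r) K) : ENNReal.ofReal A ≤ gromovWidth K := by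
  have h1 : ∀ c : ℝ, 0 < c → c < 1 → ENNReal.ofReal (A * c) ≤ gromovWidth K := by
    intro c hc hc'
    obtain ⟨r, hr, h2, h3⟩ := h c hc hc'
    rw [← h2]
    unfold gromovWidth
    exact le_iSup₂_of_le (f := fun (r : ℝ) (_ : 0 < r ∧ SympEmb (ball (n + 1) r) K) =>
      ENNReal.ofReal (Real.pi * r ^ 2)) r ⟨hr, h3⟩ le_rfl
  have h4 : Filter.Tendsto (fun c : ℝ => ENNReal.ofReal (A * c)) (nhdsWithin 1 (Set.Iio 1))
      (nhds (ENNReal.ofReal (A * 1))) := by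
    refine Filter.Tendsto.mono_left ?_ nhdsWithin_le_nhds
    exact (ENNReal.continuous_ofReal.tendsto _).comp
      ((continuous_const.mul continuous_id).tendsto 1)
  rw [mul_one] at h4
  refine le_of_tendsto h4 ?_
  have h5 : Set.Ioo (0 : ℝ) 1 ∈ nhdsWithin 1 (Set.Iio 1) := Ioo_mem_nhdsLT zero_lt_one
  filter_upwards [h5] with c hc
  exact h1 c hc.1 hc.2

section
variable {m : ℕ}

/-- the domain of the shear -/
def Dom (m : ℕ) : Set ((Fin m → ℝ) × (Fin m → ℝ)) := {z | ∀ i, 0 < z.2 i}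

theorem isOpen_Dom : IsOpen (Dom m) := by
  have h : Dom m = ⋂ i : Fin m, {z : (Fin m → ℝ) × (Fin m → ℝ) | 0 < z.2 i} := by
    ext z
    simp [Dom]
  rw [h]
  refine isOpen_iInter_of_finite fun i => ?_
  exact isOpen_lt continuous_const ((continuous_apply i).comp continuous_snd)

/-- the scaling of the two factors -/
noncomputable def LL (m : ℕ) (α β : ℝ) :
    ((Fin m → ℝ) × (Fin m → ℝ)) →L[ℝ] ((Fin m → ℝ) × (Fin m → ℝ)) :=
  (α • ContinuousLinearMap.fst ℝ (Fin m → ℝ) (Fin m → ℝ)).prod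
    (β • ContinuousLinearMap.snd ℝ (Fin m → ℝ) (Fin m → ℝ))

theorem LL_apply (α β : ℝ) (z : (Fin m → ℝ) × (Fin m → ℝ)) :
    LL m α β z = (α • z.1, β • z.2) := rfl

theorem std_LL (α β : ℝ) (u v : (Fin m → ℝ) × (Fin m → ℝ)) :
    std (LL m α β u) (LL m α β v) = α * β * std u v := by
  simp only [LL_apply, std, Pi.smul_apply, smul_eq_mul, Finset.mul_sum]
  refine Finset.sum_congr rfl fun i _ => ?_
  ring

theorem LL_inj {α β : ℝ} (hα : 0 < α) (hβ : 0 < β) : Function.Injective (LL m α β) := by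
  rintro ⟨a, b⟩ ⟨a', b'⟩ h
  simp only [LL_apply, Prod.mk.injEq] at h
  rw [smul_right_injective _ hα.ne' h.1, smul_right_injective _ hβ.ne' h.2]

/-- the product of copies of a planar map -/
def Sg (m : ℕ) (σ : ℝ × ℝ → ℝ × ℝ) (z : (Fin m → ℝ) × (Fin m → ℝ)) :
    (Fin m → ℝ) × (Fin m → ℝ) :=
  (fun k => (σ (z.1 k, z.2 k)).1, fun k => (σ (z.1 k, z.2 k)).2)

/-- the embedding -/
theorem emb {n : ℕ} (hPOT : S_POT) (hTRA : S_TRA) (hPRD : S_PRD) (hSHR : S_SHR)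
    (S : Set (Fin (n + 1) → ℝ)) (hS : Body S)
    (K : Set ((Fin (n + 1) → ℝ) × (Fin (n + 1) → ℝ))) (α β : ℝ) (hα : 0 < α) (hβ : 0 < β)
    (hK : ∀ q ∈ S, ∀ p : Fin (n + 1) → ℝ, (∀ t ∈ S, ∑ i, t i * p i ≤ 1) → (α • q, β • p) ∈ K)
    (c : ℝ) (hc : 0 < c) (hc1 : c < 1) :
    ∃ r : ℝ, 0 < r ∧ Real.pi * r ^ 2 = α * β * Real.exp (-1) * c ∧
      SympEmb (ball (n + 1) r) K := by
  have hπ := Real.pi_pos
  have hA : 0 < α * β * Real.exp (-1) := by positivity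
  obtain ⟨κ, hκ, hκ2⟩ : ∃ κ : ℝ, 0 < κ ∧ κ ^ 2 = α * β * Real.exp (-1) :=
    ⟨Real.sqrt (α * β * Real.exp (-1)), Real.sqrt_pos.2 hA, Real.sq_sqrt hA.le⟩
  obtain ⟨ρ, hρ, hρ2⟩ : ∃ ρ : ℝ, 0 < ρ ∧ ρ ^ 2 = c / Real.pi :=
    ⟨Real.sqrt (c / Real.pi), Real.sqrt_pos.2 (by positivity), Real.sq_sqrt (by positivity)⟩
  refine ⟨κ * ρ, by positivity, ?_, ?_⟩
  · rw [mul_pow, hκ2, hρ2]
    field_simp
  obtain ⟨ε, hε, g, hg, hεg⟩ : ∃ ε : ℝ, 0 < ε ∧ ∃ g : ℝ, 0 < g ∧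
      ((n : ℝ) + 1) * (Real.pi * g) + ε = 1 - c := by
    have hd : 0 < 1 - c := by linarith
    refine ⟨(1 - c) / 2, by positivity, (1 - c) / (2 * ((n : ℝ) + 1) * Real.pi), by positivity, ?_⟩
    field_simp
    ring
  obtain ⟨V, hV1, hV2⟩ := hPOT (n + 1) S hS ε hε
  obtain ⟨hσ1, hσ2, hσ3⟩ := hTRA g hg
  obtain ⟨hP1, hP2, hP3⟩ := hPRD (sg g) hσ1 hσ2 (fun z u v => (hσ3 z).2.2.2.2 u v) (n + 1)
  obtain ⟨hV3, hV4, hV5⟩ := hSHR (n + 1) V hV1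
  change ContDiff ℝ ((⊤ : ℕ∞) : WithTop ℕ∞) (Sg (n + 1) (sg g)) at hP1
  change Function.Injective (Sg (n + 1) (sg g)) at hP2
  change ∀ z u v, std (fderiv ℝ (Sg (n + 1) (sg g)) z u) (fderiv ℝ (Sg (n + 1) (sg g)) z v) =
    std u v at hP3
  change ContDiffOn ℝ ((⊤ : ℕ∞) : WithTop ℕ∞) (shr V) (Dom (n + 1)) at hV3
  change Set.InjOn (shr V) (Dom (n + 1)) at hV4
  have hmap : ∀ z, Sg (n + 1) (sg g) z ∈ Dom (n + 1) := fun z i => (hσ3 _).2.2.1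
  have hPM : ContDiff ℝ ((⊤ : ℕ∞) : WithTop ℕ∞)
      (fun z => Sg (n + 1) (sg g) (LL (n + 1) κ⁻¹ κ⁻¹ z)) :=
    hP1.comp (LL (n + 1) κ⁻¹ κ⁻¹).contDiff
  refine ⟨fun z => LL (n + 1) α β (shr V (Sg (n + 1) (sg g) (LL (n + 1) κ⁻¹ κ⁻¹ z))),
    ?_, ?_, ?_, ?_⟩
  · exact (LL (n + 1) α β).contDiff.comp_contDiffOn
      (hV3.comp hPM.contDiffOn fun z _ => hmap _)
  · intro z _ z' _ h
    have h1 := hV4 (hmap _) (hmap _) (LL_inj hα hβ h)
    exact LL_inj (by positivity) (by positivity) (hP2 h1)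
  · intro z hz
    have hz1 : ∑ i, (z.1 i ^ 2 + z.2 i ^ 2) < (κ * ρ) ^ 2 := hz
    set z' := LL (n + 1) κ⁻¹ κ⁻¹ z with hz'
    have h2 : ∑ i, (z'.1 i ^ 2 + z'.2 i ^ 2) < c / Real.pi := by
      have h3 : ∑ i, (z'.1 i ^ 2 + z'.2 i ^ 2) = (κ⁻¹) ^ 2 * ∑ i, (z.1 i ^ 2 + z.2 i ^ 2) := by
        rw [Finset.mul_sum]
        refine Finset.sum_congr rfl fun i _ => ?_
        rw [hz', LL_apply]
        simp only [Pi.smul_apply, smul_eq_mul]
        ring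
      rw [h3, ← hρ2]
      have h4 : (κ⁻¹) ^ 2 * (κ * ρ) ^ 2 = ρ ^ 2 := by
        field_simp
      rw [← h4]
      exact mul_lt_mul_of_pos_left hz1 (by positivity)
    obtain ⟨s, hs⟩ : ∃ s : Fin (n + 1) → ℝ, s = (Sg (n + 1) (sg g) z').1 := ⟨_, rfl⟩
    obtain ⟨I, hI⟩ : ∃ I : Fin (n + 1) → ℝ, I = (Sg (n + 1) (sg g) z').2 := ⟨_, rfl⟩
    have hs1 : ∀ i, s i < 1 := fun i => by rw [hs]; exact (hσ3 _).2.1
    have hs0 : ∀ i, 0 < s i := fun i => by rw [hs]; exact (hσ3 _).1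
    have hI0 : ∀ i, 0 < I i := fun i => by rw [hI]; exact (hσ3 _).2.2.1
    have hI1 : ∀ i, I i ≤ Real.pi * (z'.1 i ^ 2 + z'.2 i ^ 2) + Real.pi * g := fun i => by
      rw [hI]; exact (hσ3 (z'.1 i, z'.2 i)).2.2.2.1.le
    have hsum : ∑ i, I i + ε ≤ 1 := by
      have h5 : ∑ i, I i ≤ ∑ i : Fin (n + 1), (Real.pi * (z'.1 i ^ 2 + z'.2 i ^ 2) +
          Real.pi * g) := Finset.sum_le_sum fun i _ => hI1 i
      rw [Finset.sum_add_distrib, ← Finset.mul_sum, Finset.sum_const, Finset.card_univ,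
        Fintype.card_fin, nsmul_eq_mul] at h5
      have h6 : Real.pi * ∑ i, (z'.1 i ^ 2 + z'.2 i ^ 2) < c := by
        rwa [lt_div_iff₀ hπ, mul_comm] at h2
      push_cast at h5
      linarith
    obtain ⟨hG1, hG2⟩ := hV2 I hI0
    have hshr : shr V (Sg (n + 1) (sg g) z') =
        (fun k => Real.exp (s k - 1 + fderiv ℝ V I (Pi.single k 1)),
          fun k => I k * Real.exp (-(s k) - fderiv ℝ V I (Pi.single k 1))) := by
      rw [hs, hI]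
      rfl
    show LL (n + 1) α β (shr V (Sg (n + 1) (sg g) z')) ∈ K
    rw [hshr, LL_apply]
    refine hK _ (hS.solid _ hG1 _ fun i => ?_) _ fun t ht => ?_
    · rw [abs_of_pos (Real.exp_pos _), abs_of_pos (Real.exp_pos _)]
      exact Real.exp_le_exp.2 (by linarith [hs1 i])
    · have h7 : (fun i => |t i|) ∈ S := hS.solid t ht _ fun i => (abs_abs (t i)).le
      refine le_trans (Finset.sum_le_sum fun i _ => ?_) ((hG2 _ h7).trans hsum)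
      have h8 : Real.exp (-(s i) - fderiv ℝ V I (Pi.single i 1)) ≤
          Real.exp (-(fderiv ℝ V I (Pi.single i 1))) :=
        Real.exp_le_exp.2 (by linarith [hs0 i])
      calc t i * (I i * Real.exp (-(s i) - fderiv ℝ V I (Pi.single i 1)))
          ≤ |t i| * (I i * Real.exp (-(s i) - fderiv ℝ V I (Pi.single i 1))) :=
            mul_le_mul_of_nonneg_right (le_abs_self _)
              (mul_nonneg (hI0 i).le (Real.exp_pos _).le)
        _ ≤ |t i| * (I i * Real.exp (-(fderiv ℝ V I (Pi.single i 1)))) :=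
            mul_le_mul_of_nonneg_left (mul_le_mul_of_nonneg_left h8 (hI0 i).le) (abs_nonneg _)
        _ = I i * Real.exp (-(fderiv ℝ V I (Pi.single i 1))) * |t i| := by ring
  · intro z _ u v
    have hd1 : HasFDerivAt (Sg (n + 1) (sg g))
        (fderiv ℝ (Sg (n + 1) (sg g)) (LL (n + 1) κ⁻¹ κ⁻¹ z)) (LL (n + 1) κ⁻¹ κ⁻¹ z) :=
      (hP1.differentiable (by simp)).differentiableAt.hasFDerivAt
    have hd2 : HasFDerivAt (shr V)
        (fderiv ℝ (shr V) (Sg (n + 1) (sg g) (LL (n + 1) κ⁻¹ κ⁻¹ z)))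
        (Sg (n + 1) (sg g) (LL (n + 1) κ⁻¹ κ⁻¹ z)) :=
      ((hV3.contDiffAt (isOpen_Dom.mem_nhds (hmap _))).differentiableAt (by simp)).hasFDerivAt
    have hd3 := ((LL (n + 1) α β).hasFDerivAt.comp z
      (hd2.comp z (hd1.comp z (LL (n + 1) κ⁻¹ κ⁻¹).hasFDerivAt)))
    have hd4 : fderiv ℝ (fun z => LL (n + 1) α β
        (shr V (Sg (n + 1) (sg g) (LL (n + 1) κ⁻¹ κ⁻¹ z)))) z = _ := hd3.fderiv
    rw [hd4]
    simp only [ContinuousLinearMap.comp_apply]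
    rw [std_LL, hV5 _ (hmap _), hP3, std_LL]
    have h9 : α * β * (Real.exp (-1) * (κ⁻¹ * κ⁻¹ * std u v)) =
        (α * β * Real.exp (-1)) * (κ⁻¹ * κ⁻¹) * std u v := by ring
    rw [h9, ← hκ2]
    field_simp

end

theorem main : Pool.Agent.Y52.SJ.S_EMB := fun hPOT hTRA hPRD hSHR _ S hS K α β hα hβ hK =>
  gw_lower K _ (emb hPOT hTRA hPRD hSHR S hS K α β hα hβ hK)

end Pool.Agent.Y988.SJ
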